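import Pool.Agent.Mg.F5045a8.Gca105f

/-! Maximal Haagerup subgroups of SL(3,Z) that contain a unipotent copy of Z^2. -/

namespace Pool.Agent.MP_5045a8_al.Old.UnipotentZ2

open Pool.Agent.MP_5045a8_al

theorem result (H : Subgroup G3) :
    (IsMaxHaagerup H ∧ HasUnipotentZ2 H) ↔ IsBlockType H :=
  ⟨fun h => block_of_unip ((isMax_iff H).1 h.1) h.2,
    fun h => ⟨(isMax_iff H).2 h.maxHP, h.unip⟩⟩

end Pool.Agent.MP_5045a8_al.Old.UnipotentZ2
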